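import Mathlib
import Pool.Agent.Results.MP_109285_co.ExpInequality

/-!
# MP_109285_co: an approximate Sullivan vertex when the in-degrees have bounded ratio

If all in-degrees of a nonempty finite oriented graph lie between `δ` and `K δ`, then some vertex `v`
has `|N2+(v)| ≥ c(K) |N-(v)|` with `c(K) = (log K / (K - 1)) K^(-1/(K-1))`
(`c(K) → 1/e` for `K → 1`, `c(2) = 0.346...`).
-/

set_option autoImplicit false

namespace Pool.Agent.Retired.MP_109285_co.BoundedRatio

/-- The chord of the logarithm between `1` and `K`. -/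
theorem log_chord {K u : ℝ} (hK : 1 < K) (h1 : 1 ≤ u) (h2 : u ≤ K) :
    Real.log K / (K - 1) * (u - 1) ≤ Real.log u := by
  have hK0 : 0 < K - 1 := by linarith
  obtain ⟨_, hconc⟩ := strictConcaveOn_log_Ioi.concaveOn
  have hone : (1 : ℝ) ∈ Set.Ioi (0 : ℝ) := Set.mem_Ioi.2 one_pos
  have hKm : K ∈ Set.Ioi (0 : ℝ) := Set.mem_Ioi.2 (by linarith)
  have ha : (0 : ℝ) ≤ (K - u) / (K - 1) := div_nonneg (by linarith) hK0.le
  have hb : (0 : ℝ) ≤ (u - 1) / (K - 1) := div_nonneg (by linarith) hK0.le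
  have hc := hconc hone hKm ha hb
    (by
      rw [← add_div]
      rw [show K - u + (u - 1) = K - 1 by ring]
      exact div_self hK0.ne')
  simp only [smul_eq_mul, Real.log_one, mul_zero, zero_add, mul_one] at hc
  have h3 : (K - u) / (K - 1) + (u - 1) / (K - 1) * K = u := by
    field_simp
    ring
  rw [h3] at hc
  calc Real.log K / (K - 1) * (u - 1) = (u - 1) / (K - 1) * Real.log K := by ring
    _ ≤ Real.log u := hc

theorem result (n : ℕ) (adj : Fin n → Fin n → Prop) (hn : 0 < n)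
    (has : ∀ x y, adj x y → ¬ adj y x) (δ K : ℝ) (hδ : 0 < δ) (hK : 1 < K)
    (hdeg : ∀ v, δ ≤ ({u | adj u v}.ncard : ℝ) ∧ ({u | adj u v}.ncard : ℝ) ≤ K * δ) :
    ∃ v, Real.log K / (K - 1) * K ^ (-1 / (K - 1)) * ({u | adj u v}.ncard : ℝ) ≤
      ({w | w ≠ v ∧ ¬ adj v w ∧ ∃ u, adj v u ∧ adj u w}.ncard : ℝ) := by
  classical
  have hK0 : 0 < K - 1 := by linarith
  have hlogK : 0 < Real.log K := Real.log_pos hK
  obtain ⟨L, hL⟩ : ∃ L, L = Real.log K / (K - 1) := ⟨_, rfl⟩
  have hL0 : 0 < L := by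
    rw [hL]
    exact div_pos hlogK hK0
  have hexp : K ^ (-1 / (K - 1)) = Real.exp (-L) := by
    rw [Real.rpow_def_of_pos (by linarith), hL]
    congr 1
    ring
  obtain ⟨t, ht⟩ : ∃ t, t = Real.exp L / δ := ⟨_, rfl⟩
  have ht0 : 0 < t := by
    rw [ht]
    exact div_pos (Real.exp_pos _) hδ
  obtain ⟨v, hv⟩ := Pool.Agent.Results.MP_109285_co.ExpInequality.result n adj has (fun _ => t) (fun _ => 1) (fun _ => ht0.le)
    (fun _ => zero_le_one) ⟨⟨0, hn⟩, one_ne_zero⟩
  refine ⟨v, ?_⟩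
  rw [← hL, hexp]
  have hg : ({u | adj u v}.ncard : ℝ) = ((Finset.univ.filter (fun u => adj u v)).card : ℝ) := by
    rw [← Set.ncard_coe_finset]
    congr 2
    ext u
    simp
  have hs : ({w | w ≠ v ∧ ¬ adj v w ∧ ∃ u, adj v u ∧ adj u w}.ncard : ℝ) =
      ((Finset.univ.filter (fun w => w ≠ v ∧ ¬ adj v w ∧ ∃ u, adj v u ∧ adj u w)).card : ℝ) := by
    rw [← Set.ncard_coe_finset]
    congr 2
    ext u
    simp
  obtain ⟨g, hgdef⟩ : ∃ g : ℝ, g = ({u | adj u v}.ncard : ℝ) := ⟨_, rfl⟩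
  obtain ⟨s, hsdef⟩ : ∃ s : ℝ, s =
    ({w | w ≠ v ∧ ¬ adj v w ∧ ∃ u, adj v u ∧ adj u w}.ncard : ℝ) := ⟨_, rfl⟩
  have hd := hdeg v
  rw [← hgdef] at hd
  have h1 : t * g < Real.exp (t * s) := by
    have h2 : t * g < (1 + t) ^
        ((Finset.univ.filter (fun w => w ≠ v ∧ ¬ adj v w ∧ ∃ u, adj v u ∧ adj u w)).card) := by
      rw [hgdef, hg]
      simpa [Finset.prod_const] using hv
    have h3 : (1 + t) ^
        ((Finset.univ.filter (fun w => w ≠ v ∧ ¬ adj v w ∧ ∃ u, adj v u ∧ adj u w)).card) ≤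
        Real.exp (t * s) := by
      rw [hsdef, hs, mul_comm t, Real.exp_nat_mul]
      refine pow_le_pow_left₀ (by linarith) ?_ _
      linarith [Real.add_one_le_exp t]
    exact lt_of_lt_of_le h2 h3
  rw [← hgdef, ← hsdef]
  by_contra hcon
  push Not at hcon
  have hg0 : 0 < g := lt_of_lt_of_le hδ hd.1
  -- `u = g / δ`
  obtain ⟨u, hu⟩ : ∃ u, u = g / δ := ⟨_, rfl⟩
  have hgu : g = u * δ := by
    rw [hu]
    field_simp
  have hu1 : 1 ≤ u := by
    rw [hu, le_div_iff₀ hδ]
    linarith [hd.1]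
  have hu2 : u ≤ K := by
    rw [hu, div_le_iff₀ hδ]
    exact hd.2
  have htg : t * g = Real.exp L * u := by
    rw [ht, hgu]
    field_simp
  have h4 : t * s < L * u := by
    have h5 : t * s < t * (L * Real.exp (-L) * g) := mul_lt_mul_of_pos_left hcon ht0
    have h6 : t * (L * Real.exp (-L) * g) = L * u := by
      have h7 : t * (L * Real.exp (-L) * g) = L * Real.exp (-L) * (t * g) := by ring
      rw [h7, htg]
      have h8 : Real.exp (-L) * Real.exp L = 1 := by
        rw [← Real.exp_add]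
        simp
      calc L * Real.exp (-L) * (Real.exp L * u) = L * (Real.exp (-L) * Real.exp L) * u := by ring
        _ = L * u := by rw [h8, mul_one]
    rw [h6] at h5
    exact h5
  have h9 : Real.exp L * u < Real.exp (L * u) := by
    rw [← htg]
    exact lt_trans h1 (Real.exp_lt_exp.2 h4)
  have h10 : L + Real.log u < L * u := by
    have h11 := Real.log_lt_log (by positivity) h9
    rw [Real.log_exp, Real.log_mul (Real.exp_pos _).ne' (by positivity), Real.log_exp] at h11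
    exact h11
  have h12 := log_chord hK hu1 hu2
  rw [← hL] at h12
  linarith

end Pool.Agent.Retired.MP_109285_co.BoundedRatio
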